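import Pool.Agent.X232.CU.Iso
set_option autoImplicit false

/-!
The case `j = 2` for curves (the regulator of `K_2`): on the curves
`λ ∏_i (x - a_i) ∏_j (y - b_j) = 1` of bidegree `(r_0 + 1, r_1 + 1)` (of genus `r_0 r_1`) over `ℚ`
the regulator is an isomorphism on the part of the integral motivic cohomology which is generated
by the symbols of the functions without zeros and poles on the affine curve: this part has dimension
exactly `r_0 r_1`, the regulator is injective on it, and it is integral. Over number fields `K` the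
same is true modulo `K_2(K) ⊗ ℚ`.
-/

namespace Pool.Agent.Results.MP_4a177b_nt.CuspidalIsomorphism

open Pool.Agent.TH826.MK (KQ Unramified Torus)

open Pool.Agent.TH826.MH (CRing eqn)

open Pool.Agent.X232.CU

open scoped TensorProduct

section defs

variable {K : Type*} [Field K] {r : Fin 2 → ℕ} (σ : K →+* ℂ) (lam : K)
  (a : ∀ k, Fin (r k + 1) → K)

/-- The conditions on the coefficients: `λ` and `a_{k,i}` are algebraic integers,
`|σ a_{k,i} - σ a_{k,j}| ≥ 3 δ_k > 0` for `i ≠ j`, and `|σ λ| δ_0^(r_0 + 1) δ_1^(r_1 + 1) > 2`. -/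
structure Admissible (δ : Fin 2 → ℝ) : Prop where
  integral_lam : IsIntegral ℤ lam
  integral : ∀ k i, IsIntegral ℤ (a k i)
  pos : ∀ k, 0 < δ k
  sep : ∀ k i j, i ≠ j → 3 * δ k ≤ ‖σ (a k i) - σ (a k j)‖
  large : 2 < ‖σ lam‖ * ∏ k, δ k ^ (r k + 1)

/-- The gradient of the equation does not vanish at the complex points over `σ`. -/
def SmoothPts : Prop :=
  ∀ x : Fin 2 → ℂ, MvPolynomial.eval₂ σ x (eqn lam a) = 0 →
    ∃ k, MvPolynomial.eval₂ σ x (MvPolynomial.pderiv k (eqn lam a)) ≠ 0

/-- The loops in the complex points over `σ` of the affine curve. -/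
abbrev Loops : Type _ := {Γ : Torus (CRing lam a) 1 // Over σ Γ}

variable (L : Type*) [Field L] [Algebra (CRing lam a) L]

/-- `ρ` is the regulator: its value at the class of an element of `K_2` of the coordinate ring is
given by the regulators of this element. -/
def IsReg {V : Type*} [AddCommGroup V] [Module ℚ V] (π : Part lam a L →ₗ[ℚ] V)
    (ρ : V →ₗ[ℚ] (Loops σ lam a → ℝ)) : Prop :=
  ∀ (α : KQ (CRing lam a) 2) (h : KQ.map 2 (algebraMap (CRing lam a) L) α ∈ Part lam a L)
    (Γ : Loops σ lam a), ρ (π ⟨_, h⟩) Γ = Γ.1.reg α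

/-- For suitable `r_0 r_1` loops the `ℝ`-linear extension of `ρ` to `ℝ ⊗ V` is an isomorphism onto
`ℝ ^ (r_0 r_1)`. -/
def IsIso {V : Type*} [AddCommGroup V] [Module ℚ V] (ρ : V →ₗ[ℚ] (Loops σ lam a → ℝ)) : Prop :=
  ∃ Γ : (∀ k, Fin (r k)) → Loops σ lam a,
    Function.Bijective (((LinearMap.funLeft ℚ ℝ Γ).comp ρ).liftBaseChange ℝ)

/-- `Part` (the subspace of `K_2(L) ⊗ ℚ` of the elements which come from the symbols of the units of
the coordinate ring and are unramified at all discrete valuations trivial on `K`) consists of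
integral elements modulo the image of `K_2(K) ⊗ ℚ`; the dimension of the quotient `PartMod` of
`Part` by this image is `r_0 r_1`; the regulator is well-defined on the quotient and its `ℝ`-linear
extension is, for suitable `r_0 r_1` loops, an isomorphism onto `ℝ ^ (r_0 r_1)`. -/
def IsoModConstants : Prop :=
  Part lam a L ≤ Unramified L 2 ⊔ konst lam a L ∧
  Module.finrank ℚ (PartMod lam a L) = r 0 * r 1 ∧
  ∃ ρ : PartMod lam a L →ₗ[ℚ] (Loops σ lam a → ℝ),
    IsReg σ lam a L (mkPart lam a L) ρ ∧ IsIso σ lam a ρ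

/-- `Part` consists of integral elements, its dimension is `r_0 r_1`, the regulator is well-defined
on it, and for suitable `r_0 r_1` loops the `ℝ`-linear extension of the regulator to `ℝ ⊗ Part` is an
isomorphism onto `ℝ ^ (r_0 r_1)`. -/
def Iso : Prop :=
  Part lam a L ≤ Unramified L 2 ∧
  Module.finrank ℚ (Part lam a L) = r 0 * r 1 ∧
  ∃ ρ : Part lam a L →ₗ[ℚ] (Loops σ lam a → ℝ),
    IsReg σ lam a L LinearMap.id ρ ∧ IsIso σ lam a ρ

end defs

/-- The coordinate ring is a domain, the curve is smooth at the complex points over `σ`, and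
`IsoModConstants` holds for the function field. -/
def OverNumberField.{w, v} {K : Type w} [Field K] {r : Fin 2 → ℕ} (σ : K →+* ℂ) (lam : K)
    (a : ∀ k, Fin (r k + 1) → K) : Prop :=
  IsDomain (CRing lam a) ∧ SmoothPts σ lam a ∧
    ∀ (L : Type v) [Field L] [Algebra (CRing lam a) L] [IsFractionRing (CRing lam a) L],
      IsoModConstants σ lam a L

/-- The coordinate ring is a domain, the curve is smooth at the complex points, and `Iso` holds for
the function field. -/
def OverRationals.{v} {r : Fin 2 → ℕ} (lam : ℚ) (a : ∀ k, Fin (r k + 1) → ℚ) : Prop :=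
  IsDomain (CRing lam a) ∧ SmoothPts (algebraMap ℚ ℂ) lam a ∧
    ∀ (L : Type v) [Field L] [Algebra (CRing lam a) L] [IsFractionRing (CRing lam a) L],
      Iso (algebraMap ℚ ℂ) lam a L

/-- *Number fields.* Let `σ` be a complex embedding of the number field `K`, let `λ` and `a_{k,i}`
(`k = 0, 1`, `0 ≤ i ≤ r_k`) be algebraic integers of `K`, and let `δ_k > 0` be such that
`|σ a_{k,i} - σ a_{k,j}| ≥ 3 δ_k` for `i ≠ j` and `|σ λ| δ_0^(r_0 + 1) δ_1^(r_1 + 1) > 2`. Then the
coordinate ring of the affine curve `λ ∏_i (x_0 - a_{0,i}) ∏_j (x_1 - a_{1,j}) = 1` is a domain, the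
curve is smooth at its complex points over `σ`, and `IsoModConstants` holds for its function field:
the elements of `K_2 ⊗ ℚ` of the function field which come from symbols of units of the coordinate
ring and are unramified over `K` are integral modulo `K_2(K) ⊗ ℚ`, they form modulo `K_2(K) ⊗ ℚ` a
space of dimension `r_0 r_1`, and the regulator gives an isomorphism of this space, tensored with
`ℝ`, with `ℝ ^ (r_0 r_1)`.

*The field of rational numbers.* If `λ ≠ 0` and `a_{k,i}` are integers with
`|a_{k,i} - a_{k,j}| ≥ 4` for `i ≠ j`, and `r_0, r_1 ≥ 1`, the same is true without `K_2(K) ⊗ ℚ`: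
the elements of `K_2 ⊗ ℚ` of the function field which come from symbols of units of the coordinate
ring and are unramified over `ℚ` are integral and form a space of dimension exactly `r_0 r_1`, and
the regulator gives an isomorphism of this space, tensored with `ℝ`, with `ℝ ^ (r_0 r_1)`. -/
theorem result.{u, v} :
    (∀ (K : Type u) [Field K] [NumberField K] (σ : K →+* ℂ) (r : Fin 2 → ℕ) (lam : K)
      (a : ∀ k, Fin (r k + 1) → K) (δ : Fin 2 → ℝ), Admissible σ lam a δ →
      OverNumberField.{u, v} σ lam a) ∧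
    ∀ (r : Fin 2 → ℕ) (lam : ℤ) (a : ∀ k, Fin (r k + 1) → ℤ), (∀ k, 1 ≤ r k) → lam ≠ 0 →
      (∀ k i j, i ≠ j → 4 ≤ |a k i - a k j|) →
      OverRationals.{v} (lam : ℚ) fun k i => (a k i : ℚ) := by
  refine ⟨?_, ?_⟩
  · rintro K _ _ σ r lam a δ ⟨hlami, hai, hδ, hsep, hlam⟩
    have hl0 : lam ≠ 0 := by
      rintro rfl
      rw [map_zero, norm_zero, zero_mul] at hlam
      linarith
    have hinj : ∀ k, Function.Injective (a k) := by
      intro k i j hij
      by_contra hne
      have h := hsep k i j hne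
      rw [hij, sub_self, norm_zero] at h
      linarith [hδ k]
    refine ⟨dom hl0 hinj, fun x hx => Pool.Agent.TH826.UM.smooth two_pos σ a hδ
      (fun k i j hij => by linarith [hsep k i j hij, hδ k]) (by linarith) x hx, fun L _ _ _ => ?_⟩
    obtain ⟨h1, ρ, h2, h3⟩ := reg_iso (L := L) hl0 hinj hlami hai hδ hsep hlam
    refine ⟨part_le hl0 hinj hlami hai σ, h1, ρ, fun α h Γ => ?_, h3⟩
    have h4 := h2 ⟨α, Submodule.mem_comap.2 h.2⟩
    exact congrFun h4 Γ
  · intro r lam a hr hlam0 hsep
    set δ : Fin 2 → ℝ := fun _ => 4 / 3 with hδd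
    have hl0 : (lam : ℚ) ≠ 0 := by exact_mod_cast hlam0
    have hsep' : ∀ k i j, i ≠ j → 3 * δ k ≤
        ‖(algebraMap ℚ ℂ) (a k i : ℚ) - (algebraMap ℚ ℂ) (a k j : ℚ)‖ := by
      intro k i j hij
      have h := hsep k i j hij
      have e : (algebraMap ℚ ℂ) (a k i : ℚ) - (algebraMap ℚ ℂ) (a k j : ℚ) =
          ((a k i - a k j : ℤ) : ℂ) := by
        push_cast
        simp
      rw [e, Complex.norm_intCast, hδd]
      have h2 : (4 : ℝ) ≤ |((a k i - a k j : ℤ) : ℝ)| := by
        rw [← Int.cast_abs]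
        exact_mod_cast h
      linarith
    have hinj : ∀ k, Function.Injective (fun i => (a k i : ℚ)) := by
      intro k i j hij
      by_contra hne
      have h := hsep k i j hne
      have e' : (a k i : ℚ) = (a k j : ℚ) := hij
      have e : a k i = a k j := by exact_mod_cast e'
      rw [e, sub_self, abs_zero] at h
      omega
    have hlam : 2 < ‖(algebraMap ℚ ℂ) (lam : ℚ)‖ * ∏ k, δ k ^ (r k + 1) := by
      have h1 : (1 : ℝ) ≤ ‖(algebraMap ℚ ℂ) (lam : ℚ)‖ := by
        have e : (algebraMap ℚ ℂ) (lam : ℚ) = ((lam : ℤ) : ℂ) := by simp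
        rw [e, Complex.norm_intCast, ← Int.cast_abs]
        have := Int.one_le_abs hlam0
        exact_mod_cast this
      have h2 : ∀ k : Fin 2, (16 / 9 : ℝ) ≤ δ k ^ (r k + 1) := by
        intro k
        have h3 : δ k ^ 2 ≤ δ k ^ (r k + 1) :=
          pow_le_pow_right₀ (by rw [hδd]; norm_num) (by have := hr k; omega)
        refine le_trans ?_ h3
        rw [hδd]
        norm_num
      rw [Fin.prod_univ_two]
      have h4 : (16 / 9 : ℝ) * (16 / 9) ≤ δ 0 ^ (r 0 + 1) * δ 1 ^ (r 1 + 1) :=
        mul_le_mul (h2 0) (h2 1) (by norm_num) (le_trans (by norm_num) (h2 0))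
      have h5 : (256 / 81 : ℝ) ≤ ‖(algebraMap ℚ ℂ) (lam : ℚ)‖ *
          (δ 0 ^ (r 0 + 1) * δ 1 ^ (r 1 + 1)) := by
        refine le_trans ?_ (le_mul_of_one_le_left (by linarith) h1)
        linarith
      linarith
    have hδ : ∀ k, 0 < δ k := fun k => by rw [hδd]; norm_num
    have hi : ∀ n : ℤ, IsIntegral ℤ (n : ℚ) := fun n => isIntegral_algebraMap (x := n)
    refine ⟨dom hl0 hinj, fun x hx => Pool.Agent.TH826.UM.smooth two_pos (algebraMap ℚ ℂ)
      (fun k i => (a k i : ℚ)) hδ (fun k i j hij => by linarith [hsep' k i j hij, hδ k])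
      (by linarith) x hx, fun L _ _ _ => ?_⟩
    have hk := konst_rat (lam : ℚ) (fun k i => (a k i : ℚ)) L
    obtain ⟨h1, ρ, h2, h3⟩ := reg_iso' (L := L) hl0 hinj (hi lam) (fun k i => hi (a k i)) hδ hsep'
      hlam hk
    have h5 := part_le (L := L) hl0 hinj (hi lam) (fun k i => hi (a k i)) (algebraMap ℚ ℂ)
    rw [hk, sup_bot_eq] at h5
    refine ⟨h5, h1, ρ, fun α h Γ => ?_, h3⟩
    have h4 := h2 ⟨α, Submodule.mem_comap.2 h.2⟩
    exact congrFun h4 Γ

end Pool.Agent.Results.MP_4a177b_nt.CuspidalIsomorphism
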