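import Pool.Agent.X321.DC.Main
import Pool.Agent.TH826.DC.Cup
set_option autoImplicit false

/-!
Beilinson's regulators for `K_{d+1}` of double covers of projective space: the exact leading term, as
`λ` tends to infinity, of the regulator matrix for the hypersurfaces `z² - λ ∏_e L_e · z + 1 = 0`,
where the `L_e` are affine forms in general position with unimodular linear parts.
-/

namespace Pool.Agent.Results.MP_4a177b_nt.DoubleCoversRegulatorMatrix

open Pool.Agent.TH826.MK (KQ symb Unramified Torus)

open Pool.Agent.TH826.GA (Unimod splx)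

open Pool.Agent.TH826.DC

/-- Let `n + 1 ≤ m`, let `σ` be a complex embedding of the number field `K`, and let
`L_e = ∑_j c_{e,j} x_j - a_e`, `0 ≤ e ≤ m`, be affine forms in `n + 1` variables with integral
coefficients in `K`, such that all determinants `det (c_{T_i,j})` of `n + 1` different forms are
units (of the ring of algebraic integers) and no `n + 2` of the forms have a common zero over `K`.

For every `ε > 0` there is a constant `C > 1` such that for all algebraic integers `λ` of `K` with
`|σ λ| ≥ C` the following holds for the hypersurface `z² - Φ z + 1 = 0`, `Φ = λ ∏_e L_e`, of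
dimension `n + 1`. For all `n + 2` different forms `S` the symbol `{z, u_1, ..., u_{n+1}}`,
`u_k = γ_k L_{S_k} / (γ_0 L_{S_0})`, on the open part `Φ ≠ 0` is unramified at all discrete
valuations of the function field, where `γ_k` is `(-1)^k` times the determinant of the linear parts
of the forms `S` without `S_k`. There are tori `Γ_t` of dimension `n + 1` in the complex points
(over `σ`) of the open part, one for every subset `t` of `{1, ..., m}` with `n + 1` elements, such
that the quotients of the entries of the matrix of the regulators of the symbols of the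
`S = (0, t'_0, ..., t'_n)` on the tori `Γ_t` by `(2 π) ^ (n + 1) log |σ λ|` differ from the entries of
the identity matrix by at most `ε`, and the quotient of its determinant by
`((2 π) ^ (n + 1) log |σ λ|) ^ binom(m, n + 1)` differs from `1` by at most `ε`. -/
theorem result (n m : ℕ) (K : Type*) [Field K] [NumberField K]
    (σ : K →+* ℂ) (c : Fin (m + 1) → Fin (n + 1) → K) (a : Fin (m + 1) → K) (hm : n + 1 ≤ m)
    (hA : Unimod c a)
    (hgen : ∀ S : Fin (n + 2) → Fin (m + 1), Function.Injective S → ∀ x : Fin (n + 1) → K,
      ∃ i, ∑ j, c (S i) j * x j ≠ a (S i)) (ε : ℝ) (hε : 0 < ε) :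
    ∃ C : ℝ, 1 < C ∧ ∀ lam : K, IsIntegral ℤ lam → C ≤ ‖σ lam‖ →
      (∀ (L : Type*) [Field L] [Algebra (DRing lam c a) L] [IsFractionRing (DRing lam c a) L],
        ∃ f : DOpen lam c a →+* L,
          (∀ b : DRing lam c a, f (toD lam c a b) = algebraMap (DRing lam c a) L b) ∧
          ∀ S : Fin (n + 2) → Fin (m + 1), Function.Injective S →
            KQ.map (n + 2) f (symb (dent lam c a S)) ∈ Unramified L (n + 2)) ∧
      ∃ Γ : {s : Finset (Fin m) // s.card = n + 1} → Torus (DOpen lam c a) (n + 1),
        (∀ t θ (x : K), (Γ t).e θ (dcst lam c a x) = σ x) ∧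
        (∀ t t' : {s : Finset (Fin m) // s.card = n + 1},
          |(Γ t).reg (symb (dent lam c a (splx t'))) /
            ((2 * Real.pi) ^ (n + 1) * Real.log ‖σ lam‖) - (if t = t' then 1 else 0)| ≤ ε) ∧
        |(Matrix.of fun t i : {s : Finset (Fin m) // s.card = n + 1} =>
          (Γ t).reg (symb (dent lam c a (splx i)))).det /
          ((2 * Real.pi) ^ (n + 1) * Real.log ‖σ lam‖) ^ (m.choose (n + 1)) - 1| ≤ ε := by
  obtain ⟨c1, hc1, h⟩ := Pool.Agent.X321.DC.exists_tori_limit (a := a) σ hA.det_ne hgen hε
  have hrow : ∀ e, c e ≠ 0 := row_ne_zero hA.det_ne (by omega)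
  refine ⟨c1, hc1, fun lam hlam hl => ⟨?_, h lam hl⟩⟩
  have hl0 : lam ≠ 0 := by
    intro h0
    rw [h0, map_zero, norm_zero] at hl
    linarith
  intro L _ _ _
  have hinj : Function.Injective (algebraMap (DRing lam c a) L) := IsFractionRing.injective _ _
  have hne : algebraMap (DRing lam c a) L (dpol lam c a (dPhi lam c a)) ≠ 0 := by
    rw [Ne, map_eq_zero_iff _ hinj]
    exact dpol_dPhi_ne_zero hrow hl0
  refine ⟨liftD (algebraMap (DRing lam c a) L) hne, fun b => liftD_toD _ _ _, fun S hS => ?_⟩
  exact symb_mem_unramified _ hlam hA hS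

end Pool.Agent.Results.MP_4a177b_nt.DoubleCoversRegulatorMatrix
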