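import Pool.Agent.X321.MF.Main
set_option autoImplicit false

/-!
Beilinson's regulators on fibrations over products of lines: the exact leading term of the regulator
matrix at every large place of the parameter.
-/

namespace Pool.Agent.Results.MP_4a177b_nt.MultidegreeLimit

open Pool.Agent.TH690.PF

open Pool.Agent.TH826.MK (symb Torus)

section defs

variable {K : Type*} [Field K] {n q : ℕ} {m : Fin n → ℕ}

/-- There are tori `Γ_t` of dimension `n + q` in the complex points over `ρ` of the open part `Φ ≠ 0`,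
indexed by the `t = (t_1, ..., t_n)`, `1 ≤ t_k ≤ m_k`, such that the regulator of the symbol with the
index `i` on `Γ_t` divided by `(2 π) ^ (n + q) log |ρ λ|` differs by at most `ε` from `1` if `t = i`
and from `0` if `t ≠ i`, and the determinant of the regulators divided by
`((2 π) ^ (n + q) log |ρ λ|) ^ (m_1 ... m_n)` differs by at most `ε` from `1`. -/
def MatrixLimit (w : Fin q → ℕ) (ρ : K →+* ℂ) (lam : K) (a : (k : Fin n) → Fin (m k + 1) → K)
    (ε : ℝ) : Prop :=
  ∃ Γ : ((k : Fin n) → Fin (m k)) → Torus (POpen w (mPhi lam a)) (n + q),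
    (∀ t θ (x : K), (Γ t).e θ (pcst w (mPhi lam a) x) = ρ x) ∧
    (∀ t i, |(Γ t).reg (symb (pent w lam a i)) /
        ((2 * Real.pi) ^ (n + q) * Real.log ‖ρ lam‖) - (if t = i then 1 else 0)| ≤ ε) ∧
    |(Matrix.of fun t i : (k : Fin n) → Fin (m k) =>
      (Γ t).reg (symb (pent w lam a i))).det /
      ((2 * Real.pi) ^ (n + q) * Real.log ‖ρ lam‖) ^ (∏ k, m k) - 1| ≤ ε

end defs

/-- Let `n ≥ 2` (below `n + 2` is written for `n`), let `q ≥ 0`, `v_i = w_i + 1 ≥ 1`, `i = 1, ..., q`,
let `K` be a number field and `a_{k,0}, ..., a_{k,m_k}`, `1 ≤ k ≤ n`, different algebraic integers of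
`K` for each `k`. For every `ε > 0` there is a constant `C > 1` such that the following holds for all
algebraic integers `λ ≠ 0` of `K`. The coordinate ring is a domain. The symbols
`{z, (x_1 - a_{1,i_1})/(x_1 - a_{1,0}), ..., (x_n - a_{n,i_n})/(x_n - a_{n,0}), y_1, ..., y_q}`,
`1 ≤ i_k ≤ m_k`, on the open part `Φ ≠ 0` of the variety
`z + y_1 + ... + y_q + 1/(z y_1 ^ v_1 ... y_q ^ v_q) = Φ = λ ∏_k ∏_i (x_k - a_{k,i})` of dimension
`n + q` are unramified at all discrete valuations of the function field; and for *every* complex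
embedding `ρ` of `K` with `|ρ λ| ≥ C` there are tori `Γ_t` in the complex points over `ρ` of the open
part, indexed by the `t = (t_1, ..., t_n)`, `1 ≤ t_k ≤ m_k`, such that the matrix of the regulators of
the `m_1 ... m_n` symbols on the `m_1 ... m_n` tori, divided by `(2 π) ^ (n + q) log |ρ λ|`, is
`ε`-close to the identity matrix in every entry, and its determinant is
`((2 π) ^ (n + q) log |ρ λ|) ^ (m_1 ... m_n)` up to a factor between `1 - ε` and `1 + ε`. -/
theorem result.{u, v} (n q : ℕ) (w : Fin q → ℕ) (m : Fin (n + 2) → ℕ) (K : Type u) [Field K]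
    [NumberField K] (a : (k : Fin (n + 2)) → Fin (m k + 1) → K)
    (ha : ∀ k, Function.Injective (a k)) (hint : ∀ k i, IsIntegral ℤ (a k i)) (ε : ℝ)
    (hε : 0 < ε) :
    ∃ C : ℝ, 1 < C ∧ ∀ lam : K, IsIntegral ℤ lam → lam ≠ 0 →
      IsDomain (PRing w (mPhi lam a)) ∧ UnramSymb.{u, v} w lam a ∧
      ∀ ρ : K →+* ℂ, C ≤ ‖ρ lam‖ → MatrixLimit w ρ lam a ε := by
  choose C hC h using fun ρ : K →+* ℂ =>
    Pool.Agent.X321.MF.exists_tori_limit (a := a) w ρ ha hε
  have h0 : 0 ≤ ∑ ρ : K →+* ℂ, C ρ :=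
    Finset.sum_nonneg fun ρ _ => (zero_lt_one.trans (hC ρ)).le
  refine ⟨1 + 1 + ∑ ρ : K →+* ℂ, C ρ, by linarith, fun lam hlam hl0 =>
    ⟨isDomain_PRing (mPhi_ne_C lam a (Nat.succ_pos _) hl0),
      unramSymb w (Nat.succ_pos _) hint hlam hl0, fun ρ hρ => h ρ lam (le_trans ?_ hρ)⟩⟩
  have h1 := Finset.single_le_sum (f := C) (fun ρ _ => (zero_lt_one.trans (hC ρ)).le)
    (Finset.mem_univ ρ)
  linarith

end Pool.Agent.Results.MP_4a177b_nt.MultidegreeLimit
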